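import Pool.Agent.V5helper19.ER.Stm2

/-!
# Project ER, job CA
-/

set_option autoImplicit false
open Finset

namespace V5helper53.ER

open V5helper19.ER

lemma mem_T {n : ℕ} {i j : Fin n} {x : G n} : x ∈ T i j ↔ (x : Equiv.Perm (Fin n)) i = j := by
  simp [T]

lemma mem_DD {n : ℕ} {i k : Fin n} {x : G n} :
    x ∈ DD i k ↔ x ∈ Der n ∧ (x : Equiv.Perm (Fin n)) i = k := by
  simp [DD]

lemma lab_mono {n : ℕ} {X Y : Finset (G n)} (h : X ⊆ Y) : lab X ≤ lab Y :=
  card_le_card (image_subset_image h)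

lemma lab_le_card {n : ℕ} (X : Finset (G n)) : lab X ≤ X.card := card_image_le

lemma card_le_lab {n : ℕ} (U : Finset (G n)) :
    U.card ≤ lab U + (U.filter fun d => d⁻¹ ∈ U).card := by
  have h1 : (U.filter fun d => d⁻¹ ∉ U).card ≤ lab U := by
    unfold lab
    rw [← card_image_of_injOn (s := U.filter fun d => d⁻¹ ∉ U)
      (f := fun d => ({d, d⁻¹} : Finset (G n)))]
    · exact card_le_card (image_subset_image (filter_subset _ _))
    · intro d hd e he hde
      have hd' := mem_filter.1 (mem_coe.1 hd)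
      have he' := mem_filter.1 (mem_coe.1 he)
      have h2 : e ∈ ({d, d⁻¹} : Finset (G n)) := by
        have h3 : ({d, d⁻¹} : Finset (G n)) = {e, e⁻¹} := hde
        rw [h3]
        exact mem_insert_self _ _
      rcases mem_insert.1 h2 with h | h
      · exact h.symm
      · rw [mem_singleton] at h
        exact absurd (h ▸ he'.1) hd'.2
  have h2 := card_filter_add_card_filter_not (s := U) (fun d => d⁻¹ ∈ U)
  omega

/-- **Job CA.** -/
theorem t_CA (hTR : S_TR) (hLB : S_LB) : S_CA := by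
  refine ⟨5000, fun n hn D S hB i l => ?_⟩
  by_contra hcon
  push Not at hcon
  obtain ⟨tr1, tr2, -⟩ := hTR n (by omega)
  obtain ⟨lb1, -, -⟩ := hLB n (by omega)
  have hn0 : (0 : ℝ) < n := by
    have : 0 < n := by omega
    exact_mod_cast this
  have hn1 : (5000 : ℝ) ≤ n := by exact_mod_cast hn
  have hN : (0 : ℝ) < NN n := by
    unfold NN
    exact_mod_cast Fintype.card_pos
  -- the sets
  set H : Finset (G n) := T i l with hH
  have hHc : (n : ℝ) * H.card = NN n := by
    unfold NN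
    exact_mod_cast tr1 i l
  have hSH : (S.filter fun x : G n => (x : Equiv.Perm (Fin n)) i = l) = S ∩ H := by
    ext x
    rw [mem_filter, mem_inter, hH, mem_T]
  have h1 : (1 - 1 / 400) * NN n < n * ((S ∩ H).card : ℝ) := by
    unfold aa at hcon
    rw [hSH, lt_div_iff₀ hN] at hcon
    exact hcon
  have hHS : ((H \ S).card : ℝ) + (S ∩ H).card = H.card := by
    rw [inter_comm]
    exact_mod_cast card_sdiff_add_card_inter H S
  have hXS : ((S \ H).card : ℝ) + (S ∩ H).card = S.card := by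
    exact_mod_cast card_sdiff_add_card_inter S H
  have hbig : NN n < n * (S.card : ℝ) := by
    unfold NN
    exact_mod_cast hB.big
  have h2 : (n : ℝ) * (H \ S).card < NN n / 400 := by
    have : (n : ℝ) * ((H \ S).card + (S ∩ H).card) = NN n := by rw [hHS, hHc]
    nlinarith
  have h3 : (H \ S).card < (S \ H).card := by
    have h4 : (H.card : ℝ) < S.card := by
      have : (n : ℝ) * H.card < n * S.card := by rw [hHc]; exact hbig
      exact lt_of_mul_lt_mul_left this hn0.le
    have h5 : ((H \ S).card : ℝ) < (S \ H).card := by linarith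
    exact_mod_cast h5
  -- the key map
  have hmem : ∀ x ∈ S, ∀ k, (x : Equiv.Perm (Fin n)) k = l → ∀ d ∈ DD i k \ D, x * d ∈ H \ S := by
    intro x hx k hk d hd
    rw [mem_sdiff, mem_DD] at hd
    rw [mem_sdiff, hH, mem_T]
    refine ⟨?_, hB.ind x hx d hd.1.1 hd.2⟩
    show (x : Equiv.Perm (Fin n)) ((d : Equiv.Perm (Fin n)) i) = l
    rw [hd.1.2, hk]
  have hR : ∀ k, (∃ x ∈ S, (x : Equiv.Perm (Fin n)) k = l) → (DD i k \ D).card ≤ (H \ S).card := by
    rintro k ⟨x, hx, hk⟩
    rw [← card_image_of_injective (DD i k \ D) (mul_right_injective x)]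
    refine card_le_card fun y hy => ?_
    obtain ⟨d, hd, rfl⟩ := mem_image.1 hy
    exact hmem x hx k hk d hd
  have hne : ∀ k, i ≠ k → (DD i k \ D).Nonempty := by
    intro k hk
    rw [nonempty_iff_ne_empty]
    intro he
    have h4 : DD i k ⊆ D := sdiff_eq_empty_iff_subset.1 he
    exact absurd (lab_mono h4) (not_le.2 (hB.lab_lt i k hk))
  have hX : ∀ k, i ≠ k → ((S \ H).filter fun x : G n => (x : Equiv.Perm (Fin n)) k = l).card ≤
      (H \ S).card := by
    intro k hk
    obtain ⟨d, hd⟩ := hne k hk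
    rw [← card_image_of_injective _ (mul_left_injective d)]
    refine card_le_card fun y hy => ?_
    obtain ⟨x, hx, rfl⟩ := mem_image.1 hy
    rw [mem_filter, mem_sdiff] at hx
    exact hmem x hx.1.1 k hx.2 d hd
  -- two different indices
  have hpos : (S \ H).Nonempty := card_pos.1 (by omega)
  obtain ⟨x, hx⟩ := hpos
  have hxS := (mem_sdiff.1 hx).1
  have hxH := (mem_sdiff.1 hx).2
  obtain ⟨k, hk⟩ : ∃ k, (x : Equiv.Perm (Fin n)) k = l := ⟨_, Equiv.apply_symm_apply _ _⟩
  have hik : i ≠ k := by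
    rintro rfl
    exact hxH (by rw [hH, mem_T]; exact hk)
  have hex : ∃ x' ∈ S \ H, (x' : Equiv.Perm (Fin n)) k ≠ l := by
    by_contra hno
    push Not at hno
    have h4 : ((S \ H).filter fun x : G n => (x : Equiv.Perm (Fin n)) k = l) = S \ H :=
      filter_true_of_mem hno
    have h5 := hX k hik
    rw [h4] at h5
    omega
  obtain ⟨x', hx', hkx'⟩ := hex
  obtain ⟨k', hk'⟩ : ∃ k', (x' : Equiv.Perm (Fin n)) k' = l := ⟨_, Equiv.apply_symm_apply _ _⟩
  have hik' : i ≠ k' := by
    rintro rfl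
    exact (mem_sdiff.1 hx').2 (by rw [hH, mem_T]; exact hk')
  have hkk' : k ≠ k' := by
    rintro rfl
    exact hkx' hk'
  have r1 := hR k ⟨x, hxS, hk⟩
  have r2 := hR k' ⟨x', (mem_sdiff.1 hx').1, hk'⟩
  -- the labels
  set U : Finset (G n) := (DD i k ∩ D) ∪ (DD i k' ∩ D) with hU
  have hdisj : Disjoint (DD i k ∩ D) (DD i k' ∩ D) := by
    rw [disjoint_left]
    intro d hd hd'
    have e1 := (mem_DD.1 (mem_inter.1 hd).1).2
    have e2 := (mem_DD.1 (mem_inter.1 hd').1).2
    exact hkk' (e1.symm.trans e2)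
  have hUc : U.card = (DD i k ∩ D).card + (DD i k' ∩ D).card := card_union_of_disjoint hdisj
  have hUD : U ⊆ D := union_subset inter_subset_right inter_subset_right
  have hl := card_le_lab U
  have hl2 := lab_mono hUD
  have hl3 := hB.lab_lt i k hik
  have hl4 := lab_le_card (DD i k)
  have hW : (U.filter fun d => d⁻¹ ∈ U) ⊆
      ((T i k ∩ T k i) ∪ (T i k ∩ T k' i)) ∪ ((T i k' ∩ T k i) ∪ (T i k' ∩ T k' i)) := by
    intro d hd
    rw [mem_filter] at hd
    have hval : ∀ e ∈ U, (e : Equiv.Perm (Fin n)) i = k ∨ (e : Equiv.Perm (Fin n)) i = k' := by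
      intro e he
      rw [hU, mem_union, mem_inter, mem_inter, mem_DD, mem_DD] at he
      rcases he with he | he
      · exact Or.inl he.1.2
      · exact Or.inr he.1.2
    have hinv : ∀ q, ((d⁻¹ : G n) : Equiv.Perm (Fin n)) i = q → (d : Equiv.Perm (Fin n)) q = i := by
      intro q hq
      rw [← hq]
      show (d : Equiv.Perm (Fin n)) ((d : Equiv.Perm (Fin n))⁻¹ i) = i
      exact Equiv.apply_symm_apply _ _
    rw [mem_union, mem_union, mem_union, mem_inter, mem_inter, mem_inter, mem_inter, mem_T, mem_T,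
      mem_T, mem_T]
    rcases hval d hd.1 with a | a <;> rcases hval _ hd.2 with b | b
    · exact Or.inl (Or.inl ⟨a, hinv _ b⟩)
    · exact Or.inl (Or.inr ⟨a, hinv _ b⟩)
    · exact Or.inr (Or.inl ⟨a, hinv _ b⟩)
    · exact Or.inr (Or.inr ⟨a, hinv _ b⟩)
  have hT : ∀ p q, i ≠ p → i ≠ q → n * (n - 1) * (T i p ∩ T q i).card = Fintype.card (G n) :=
    fun p q hp hq => tr2 i p q i hq (Ne.symm hp)
  have hWc : n * (n - 1) * (U.filter fun d => d⁻¹ ∈ U).card ≤ 4 * Fintype.card (G n) := by
    have h4 := card_le_card hW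
    have h5 := (card_union_le ((T i k ∩ T k i) ∪ (T i k ∩ T k' i))
      ((T i k' ∩ T k i) ∪ (T i k' ∩ T k' i)))
    have h6 := card_union_le (T i k ∩ T k i) (T i k ∩ T k' i)
    have h7 := card_union_le (T i k' ∩ T k i) (T i k' ∩ T k' i)
    calc n * (n - 1) * (U.filter fun d => d⁻¹ ∈ U).card ≤
        n * (n - 1) * (((T i k ∩ T k i).card + (T i k ∩ T k' i).card) +
          ((T i k' ∩ T k i).card + (T i k' ∩ T k' i).card)) :=
          Nat.mul_le_mul_left _ (by omega)
      _ = 4 * Fintype.card (G n) := by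
          rw [mul_add, mul_add, mul_add, hT k k hik hik, hT k k' hik hik', hT k' k hik' hik,
            hT k' k' hik' hik']
          ring
  have c1 := card_sdiff_add_card_inter (DD i k) D
  have c2 := card_sdiff_add_card_inter (DD i k') D
  have hfin : (DD i k').card ≤ 2 * (H \ S).card + (U.filter fun d => d⁻¹ ∈ U).card := by omega
  have hfinR : ((DD i k').card : ℝ) ≤ 2 * (H \ S).card + (U.filter fun d => d⁻¹ ∈ U).card := by
    exact_mod_cast hfin
  have hWR : (n : ℝ) * ((n : ℝ) - 1) * ((U.filter fun d => d⁻¹ ∈ U).card : ℝ) ≤ 4 * NN n := by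
    have h4 : ((n * (n - 1) * (U.filter fun d => d⁻¹ ∈ U).card : ℕ) : ℝ) ≤
        ((4 * Fintype.card (G n) : ℕ) : ℝ) := by exact_mod_cast hWc
    rw [Nat.cast_mul, Nat.cast_mul, Nat.cast_sub (by omega : 1 ≤ n), Nat.cast_one] at h4
    unfold NN
    push_cast at h4
    exact h4
  have hlb := lb1 i k' hik'
  -- the contradiction
  have hw : (n : ℝ) * ((U.filter fun d => d⁻¹ ∈ U).card : ℝ) ≤ 4 * NN n / 4999 := by
    rw [le_div_iff₀ (by norm_num)]
    have h4 : (0 : ℝ) ≤ (n : ℝ) * ((U.filter fun d => d⁻¹ ∈ U).card : ℝ) := by positivity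
    nlinarith
  nlinarith

end V5helper53.ER
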